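import Mathlib
import Pool.Agent.Lib_helper89.CantorDefs

/-!
Definitions for the strengthened answer to Q2 of problem MP_f7d718_lc: mixing, dense periodic
points and the (periodic) specification property of homeomorphisms of the Cantor set.
-/

open MeasureTheory Set

namespace Pool.Agent.CSPEC

open Pool.Agent.Lib_helper89.Cantor

/-- `T` is topologically mixing: for all nonempty open `U`, `V` the set `T^n(U) ∩ V` is
nonempty for all large `n`. -/
def IsMixing (T : C ≃ₜ C) : Prop :=
  ∀ U V : Set C, IsOpen U → IsOpen V → U.Nonempty → V.Nonempty →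
    ∃ N : ℕ, ∀ n : ℕ, N ≤ n → (((T ^ n : C ≃ₜ C) '' U) ∩ V).Nonempty

/-- The periodic points of `T` are dense. -/
def DensePeriodic (T : C ≃ₜ C) : Prop :=
  ∀ U : Set C, IsOpen U → U.Nonempty → ∃ x ∈ U, ∃ p : ℕ, 0 < p ∧ (T ^ p) x = x

/-- The (periodic) specification property of Bowen, for the metric
`d(x, y) = 2^(-min {i : x i ≠ y i})` of the Cantor set: for every `m` there is a gap `N` such
that every finite family of orbit segments `T^k (x j)`, `a j ≤ k ≤ b j`, with consecutive
segments at least `N` apart, is traced up to `2^(-m)` by a point of any period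
`p ≥ b_last - a_first + N`. -/
def Specification (T : C ≃ₜ C) : Prop :=
  ∀ m : ℕ, ∃ N : ℕ, ∀ (n : ℕ) (x : Fin n → C) (a b : Fin n → ℤ) (p : ℕ), 0 < p →
    (∀ j, a j ≤ b j) → (∀ i j, i < j → b i + N ≤ a j) → (∀ i j, b j + N ≤ a i + p) →
    ∃ z : C, (T ^ p) z = z ∧
      ∀ j, ∀ k : ℤ, a j ≤ k → k ≤ b j → ∀ i < m, (T ^ k) z i = (T ^ k) (x j) i

/-- The shadowing property, for the same metric: for every `m` there is `M` such that every
`2^(-M)`-pseudo-orbit `(x k)`, `k ∈ ℤ`, that is, `T (x k)` and `x (k + 1)` agree in the first `M`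
coordinates, is traced up to `2^(-m)` by the orbit of a point. -/
def Shadowing (T : C ≃ₜ C) : Prop :=
  ∀ m : ℕ, ∃ M : ℕ, ∀ x : ℤ → C, (∀ k : ℤ, ∀ i < M, T (x k) i = x (k + 1) i) →
    ∃ z : C, ∀ k : ℤ, ∀ i < m, (T ^ k) z i = x k i

/-- Topological conjugacy restricted to the class `K` of homeomorphisms. -/
def ConjOn (K : Set (C ≃ₜ C)) (S T : {T : C ≃ₜ C // T ∈ K}) : Prop := Conj S.1 T.1

end Pool.Agent.CSPEC
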