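import Mathlib
import Pool.Agent.CSPEC.Defs
import Pool.Agent.Lib_helper89.CantorBackward

open MeasureTheory Set TopologicalSpace Filter Topology

namespace Pool.Agent.CSPEC

open Pool.Agent.Lib_helper89 Pool.Agent.Lib_helper89.Cantor

/-! ### the system -/

/-- admissible letters: a letter with `v 0 = true` (a joker) carries arbitrary further
coordinates; another letter has a type `v 1` and at most one index -/
def VS (v : ℕ → Bool) : Prop :=
  v 0 = false → ∀ n m, v (n + 2) = true → v (m + 2) = true → n = m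

/-- the system attached to a relation: jokers may be followed and preceded by everything -/
def SysS (B : ℕ → ℕ → Bool) : Set Om :=
  {y | (∀ k, VS (y k)) ∧ ∀ k, Tr B (y k) (y (k + 1))}

/-- the constant joker -/
def js : Om := fun _ => Cantor.star

/-- another joker -/
def star' : ℕ → Bool := fun _ => true

lemma vs_star : VS Cantor.star := fun h => absurd (star_zero.symm.trans h) (by decide)
lemma vs_star' : VS star' := fun h => absurd (show true = false from h) (by decide)
lemma star'_zero : star' 0 = true := rfl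
lemma star_ne : Cantor.star ≠ star' := by
  intro h
  have h1 : Cantor.star 1 = star' 1 := congrFun h 1
  have h2 : Cantor.star 1 = false := rfl
  have h3 : star' 1 = true := rfl
  rw [h2, h3] at h1
  exact absurd h1 (by decide)

lemma vs_lc (t : Bool) (a : Option ℕ) : VS (lc t a) := fun _ => (valid_lc t a).2

lemma js_mem (B : ℕ → ℕ → Bool) : js ∈ SysS B :=
  ⟨fun _ => vs_star, fun _ => tr_star_left star_zero⟩

lemma js'_mem (B : ℕ → ℕ → Bool) : (fun _ => star' : Om) ∈ SysS B :=
  ⟨fun _ => vs_star', fun _ => tr_star_left star'_zero⟩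

/-- local criterion -/
lemma mem_of_local {B : ℕ → ℕ → Bool} {w : Om}
    (h : ∀ k, ∃ y ∈ SysS B, ∃ s : ℤ, w k = y s ∧
      (w k 0 = true ∨ w (k + 1) 0 = true ∨ w (k + 1) = y (s + 1))) : w ∈ SysS B := by
  refine ⟨fun k => ?_, fun k => ?_⟩
  · obtain ⟨y, hy, s, h1, _⟩ := h k
    rw [h1]; exact hy.1 s
  · obtain ⟨y, hy, s, h1, h2 | h2 | h2⟩ := h k
    · exact tr_star_left h2
    · exact tr_star_right h2
    · rw [h1, h2]; exact hy.2 s

lemma sysS_shift {B : ℕ → ℕ → Bool} {y : Om} (h : y ∈ SysS B) (n : ℤ) :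
    (fun i => y (i + n)) ∈ SysS B := by
  apply mem_of_local
  intro k
  exact ⟨y, h, k + n, rfl, Or.inr (Or.inr (by
    show y (k + 1 + n) = y (k + n + 1)
    rw [show k + 1 + n = k + n + 1 by ring]))⟩

/-- no isolated points, symbolic form -/
lemma sysS_perfect {B : ℕ → ℕ → Bool} {y : Om} (hy : y ∈ SysS B) (m : ℕ) :
    ∃ w ∈ SysS B, w ≠ y ∧ ∀ i : ℤ, -(m : ℤ) ≤ i → i ≤ m → w i = y i := by
  obtain ⟨c, hc0, hcV, hcne⟩ : ∃ c : ℕ → Bool, c 0 = true ∧ (fun _ => c : Om) ∈ SysS B ∧
      c ≠ y ((m : ℤ) + 1) := by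
    by_cases h : Cantor.star = y ((m : ℤ) + 1)
    · exact ⟨star', rfl, js'_mem B, fun h' => star_ne (h.trans h'.symm)⟩
    · exact ⟨Cantor.star, rfl, js_mem B, h⟩
  refine ⟨fun i => if -(m : ℤ) ≤ i ∧ i ≤ m then y i else c, ?_, ?_, ?_⟩
  · apply mem_of_local
    intro k
    by_cases hk : -(m : ℤ) ≤ k ∧ k ≤ m
    · refine ⟨y, hy, k, if_pos hk, ?_⟩
      by_cases hk' : -(m : ℤ) ≤ k + 1 ∧ k + 1 ≤ m
      · right; right; exact if_pos hk'
      · right; left
        simp only [if_neg hk']
        exact hc0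
    · refine ⟨fun _ => c, hcV, k, if_neg hk, ?_⟩
      left
      simp only [if_neg hk]
      exact hc0
  · intro h
    have h1 := congrFun h ((m : ℤ) + 1)
    rw [if_neg (by omega)] at h1
    exact hcne h1
  · intro i h1 h2
    exact if_pos ⟨h1, h2⟩

/-! ### topology of the system -/

lemma isClosed_sysS : IsClosed {p : Rel × Om | p.2 ∈ SysS p.1} := by
  have h : {p : Rel × Om | p.2 ∈ SysS p.1} =
      {p | ∀ k, VS (p.2 k)} ∩ {p | ∀ k, Tr p.1 (p.2 k) (p.2 (k + 1))} := rfl
  rw [h]
  have hb : ∀ (k : ℤ) (c : ℕ) (b : Bool), IsClopen {p : Rel × Om | p.2 k c = b} :=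
    fun k c b => isClopen_bool (cont_letter k c) b
  refine IsClosed.inter ?_ ?_
  · have : {p : Rel × Om | ∀ k, VS (p.2 k)} = ⋂ k, {p : Rel × Om |
        p.2 k 0 = false → ∀ n m, p.2 k (n + 2) = true → p.2 k (m + 2) = true → n = m} := by
      ext p; simp only [mem_ofPred_eq, mem_iInter]; rfl
    rw [this]
    refine isClosed_iInter fun k => ?_
    apply isClosed_imp' (hb k 0 false).isOpen
    have : {p : Rel × Om | ∀ n m, p.2 k (n + 2) = true → p.2 k (m + 2) = true → n = m} =
        ⋂ n, ⋂ m, {p : Rel × Om | p.2 k (n + 2) = true → p.2 k (m + 2) = true → n = m} := by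
      ext p; simp
    rw [this]
    refine isClosed_iInter fun n => isClosed_iInter fun m => ?_
    exact isClosed_imp' (hb k _ true).isOpen (isClosed_imp' (hb k _ true).isOpen
      isClosed_const)
  · have : {p : Rel × Om | ∀ k, Tr p.1 (p.2 k) (p.2 (k + 1))} = ⋂ k,
        ({p : Rel × Om | p.2 k 0 = true} ∪ ({p | p.2 (k + 1) 0 = true} ∪
        (({p | p.2 k 1 = p.2 (k + 1) 1} ∩ {p | ∀ n, p.2 k (n + 2) = p.2 (k + 1) (n + 2)}) ∪
        ({p | p.2 k 1 = false} ∩ ({p | p.2 (k + 1) 1 = true} ∩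
          {p | ∀ n m, p.2 k (n + 2) = true → p.2 (k + 1) (m + 2) = true →
            p.1 n m = true}))))) := by
      ext p; simp only [mem_ofPred_eq, mem_iInter, mem_inter_iff, mem_union]; rfl
    rw [this]
    refine isClosed_iInter fun k => (hb k 0 true).isClosed.union
      ((hb (k + 1) 0 true).isClosed.union (IsClosed.union (IsClosed.inter ?_ ?_)
      ((hb k 1 false).isClosed.inter ((hb (k + 1) 1 true).isClosed.inter ?_))))
    · exact isClosed_eq (cont_letter _ _) (cont_letter _ _)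
    · have : {p : Rel × Om | ∀ n, p.2 k (n + 2) = p.2 (k + 1) (n + 2)} =
          ⋂ n, {p : Rel × Om | p.2 k (n + 2) = p.2 (k + 1) (n + 2)} := by ext p; simp
      rw [this]
      exact isClosed_iInter fun n => isClosed_eq (cont_letter _ _) (cont_letter _ _)
    · have : {p : Rel × Om | ∀ n m, p.2 k (n + 2) = true → p.2 (k + 1) (m + 2) = true →
            p.1 n m = true} = ⋂ n, ⋂ m, {p : Rel × Om | p.2 k (n + 2) = true →
            p.2 (k + 1) (m + 2) = true → p.1 n m = true} := by
        ext p; simp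
      rw [this]
      refine isClosed_iInter fun n => isClosed_iInter fun m => ?_
      exact isClosed_imp' (hb k _ true).isOpen (isClosed_imp' (hb (k + 1) _ true).isOpen
        (isClopen_bool (cont_rel n m) true).isClosed)

/-- the perfect set attached to a relation -/
def QS (B : Rel) : Set C := {w | toC.symm w ∈ SysS B}

lemma isClosed_QS : IsClosed {p : Rel × C | p.2 ∈ QS p.1} := by
  have hc : Continuous (fun p : Rel × C => ((p.1, toC.symm p.2) : Rel × Om)) :=
    continuous_fst.prodMk (toC.symm.continuous.comp continuous_snd)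
  exact isClosed_sysS.preimage hc

lemma isClosed_projS {p : Rel × C → Prop} (hp : IsClosed {x : Rel × C | p x}) :
    IsClosed {B : Rel | ∃ w : C, w ∈ QS B ∧ p (B, w)} := by
  have h1 : IsClosed ({x : Rel × C | x.2 ∈ QS x.1} ∩ {x | p x}) := isClosed_QS.inter hp
  have h2 : {B : Rel | ∃ w : C, w ∈ QS B ∧ p (B, w)} =
      Prod.fst '' ({x : Rel × C | x.2 ∈ QS x.1} ∩ {x | p x}) := by
    ext B
    simp only [mem_ofPred_eq, mem_image, mem_inter_iff, Prod.exists]
    constructor
    · rintro ⟨w, h3, h4⟩; exact ⟨B, w, ⟨h3, h4⟩, rfl⟩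
    · rintro ⟨B', w, ⟨h3, h4⟩, rfl⟩; exact ⟨w, h3, h4⟩
  rw [h2]
  exact (h1.isCompact.image continuous_fst).isClosed

lemma measS_agree (s : C) (m : ℕ) : MeasurableSet {B : Rel | ∃ w ∈ QS B, ∀ i < m, w i = s i} :=
  (isClosed_projS (p := fun x => ∀ i < m, x.2 i = s i) (isClopen_agree s m).isClosed).measurableSet

lemma measS_split (s : C) (m : ℕ) : MeasurableSet {B : Rel | split QS B s m} := by
  apply IsClosed.measurableSet
  apply isClosed_projS (p := fun x => (∀ i < m, x.2 i = s i) ∧ x.2 m ≠ s m)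
  have h1 := (isClopen_agree s m).isClosed
  have h2 : IsClosed {x : Rel × C | x.2 m ≠ s m} :=
    (isClopen_bool ((continuous_apply (A := fun _ : ℕ => Bool) m).comp continuous_snd)
      (s m)).compl.isClosed
  exact h1.inter h2

lemma QS_nonempty (B : Rel) : (QS B).Nonempty :=
  ⟨toC js, by
    show toC.symm (toC _) ∈ SysS B
    rw [Homeomorph.symm_apply_apply]; exact js_mem B⟩

lemma QS_closed (B : Rel) : IsClosed (QS B) :=
  isClosed_QS.preimage (f := fun w : C => ((B, w) : Rel × C)) (by fun_prop)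

lemma QS_perfect : Perfect' QS := by
  intro B w hw n
  obtain ⟨m, hm⟩ : ∃ m : ℕ, ∀ i < n, (idx.symm i).1.natAbs ≤ m := by
    obtain ⟨b, hb⟩ := ((Finset.range n).image (fun i => (idx.symm i).1.natAbs)).bddAbove
    refine ⟨b, fun i hi => hb ?_⟩
    simp only [Finset.coe_image, Set.mem_image]
    exact ⟨i, by simpa using hi, rfl⟩
  obtain ⟨y, hy, hne, hag⟩ := sysS_perfect (B := B) hw m
  refine ⟨toC y, by show toC.symm (toC y) ∈ SysS B; rw [Homeomorph.symm_apply_apply]; exact hy,
    fun h => hne (by rw [← h, Homeomorph.symm_apply_apply]), fun i hi => ?_⟩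
  have h1 := hm i hi
  show y (idx.symm i).1 (idx.symm i).2 = w i
  rw [hag _ (by omega) (by omega)]
  show w (idx ((idx.symm i).1, (idx.symm i).2)) = w i
  simp

lemma shS_mem {B : ℕ → ℕ → Bool} (y : Om) : y ∈ SysS B ↔ sh y ∈ SysS B := by
  constructor
  · intro h; exact sysS_shift h 1
  · intro h
    have := sysS_shift h (-1)
    have e : (fun i : ℤ => sh y (i + -1)) = y := by funext i; simp [sh]
    rwa [e] at this

lemma shCS_mem (B : Rel) (w : C) : w ∈ QS B ↔ shC w ∈ QS B := by
  show toC.symm w ∈ SysS B ↔ toC.symm (toC (sh (toC.symm w))) ∈ SysS B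
  rw [Homeomorph.symm_apply_apply]
  exact shS_mem _

/-- points of the system -/
abbrev XS (B : Rel) : Type := {y : Om // y ∈ SysS B}

/-- the subshift -/
def shS (B : Rel) : XS B ≃ₜ XS B := sh.subtype shS_mem

/-- the Borel family of homeomorphisms -/
theorem exists_familyS : ∃ f : Rel → (C ≃ₜ C), Measurable f ∧
    ∀ B, ∃ H : C ≃ₜ XS B, ∀ x, H (f B x) = shS B (H x) := by
  obtain ⟨f, hf, hh⟩ := transfer QS_perfect QS_nonempty QS_closed measS_split measS_agree shC
    shCS_mem
  refine ⟨f, hf, fun B => ?_⟩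
  obtain ⟨h, hx⟩ := hh B
  refine ⟨h.trans (toC.symm.subtype (fun w => Iff.rfl)), fun x => ?_⟩
  apply Subtype.ext
  show toC.symm (h (f B x)).1 = sh (toC.symm (h x).1)
  rw [hx]
  show toC.symm (toC (sh (toC.symm _))) = _
  rw [Homeomorph.symm_apply_apply]

end Pool.Agent.CSPEC
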