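import Mathlib
import Pool.Agent.CSPEC.Sys

open MeasureTheory Set TopologicalSpace Filter Topology

namespace Pool.Agent.CSPEC

open Pool.Agent.Lib_helper89 Pool.Agent.Lib_helper89.Cantor

/-! ### conjugacy invariants -/

section Inv

variable {X Y : Type} [TopologicalSpace X] [TopologicalSpace Y]

/-- `z` is a point of expansivity: for some neighbourhood `U` of the diagonal no other point
stays `U`-close to the orbit of `z` at all times -/
def ExpPt (T : X ≃ₜ X) (z : X) : Prop :=
  ∃ U : Set (X × X), IsOpen U ∧ (∀ x, (x, x) ∈ U) ∧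
    ∀ y, (∀ n : ℕ, (T^[n] z, T^[n] y) ∈ U) → (∀ n : ℕ, (T.symm^[n] z, T.symm^[n] y) ∈ U) → y = z

/-- `p` and `q` are connected by the orbit of a point of expansivity -/
def ELink (T : X ≃ₜ X) (p q : X) : Prop :=
  ∃ z, ExpPt T z ∧ Tendsto (fun n => T.symm^[n] z) atTop (𝓝 p) ∧
    Tendsto (fun n => T^[n] z) atTop (𝓝 q)

lemma ExpPt.map {T : X ≃ₜ X} {T' : Y ≃ₜ Y} {F : X ≃ₜ Y} (hF : ∀ x, F (T x) = T' (F x))
    {z : X} (h : ExpPt T z) : ExpPt T' (F z) := by
  obtain ⟨U, hU, hd, hz⟩ := h
  refine ⟨Prod.map F.symm F.symm ⁻¹' U, hU.preimage (F.symm.continuous.prodMap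
    F.symm.continuous), fun x => hd _, fun y h1 h2 => ?_⟩
  have key := hz (F.symm y) (fun n => ?_) (fun n => ?_)
  · rw [← key, Homeomorph.apply_symm_apply]
  · have h3 := h1 n
    have e1 : T'^[n] (F z) = F (T^[n] z) := (conj_iter hF n z).symm
    have e2 : T'^[n] y = F (T^[n] (F.symm y)) := by
      rw [conj_iter hF, Homeomorph.apply_symm_apply]
    rw [e1, e2] at h3
    simpa only [mem_preimage, Prod.map_apply, Homeomorph.symm_apply_apply] using h3
  · have h3 := h2 n
    have hF' : ∀ x, F (T.symm x) = T'.symm (F x) := fun x => conj_symm hF x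
    have e1 : T'.symm^[n] (F z) = F (T.symm^[n] z) :=
      (conj_iter (T := T.symm) (T' := T'.symm) hF' n z).symm
    have e2 : T'.symm^[n] y = F (T.symm^[n] (F.symm y)) := by
      rw [conj_iter (T := T.symm) (T' := T'.symm) hF', Homeomorph.apply_symm_apply]
    rw [e1, e2] at h3
    simpa only [mem_preimage, Prod.map_apply, Homeomorph.symm_apply_apply] using h3

lemma ELink.map {T : X ≃ₜ X} {T' : Y ≃ₜ Y} {F : X ≃ₜ Y} (hF : ∀ x, F (T x) = T' (F x))
    {p q : X} (h : ELink T p q) : ELink T' (F p) (F q) := by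
  obtain ⟨z, h1, h2, h3⟩ := h
  refine ⟨F z, h1.map hF, ?_, ?_⟩
  · have e : (fun n => T'.symm^[n] (F z)) = fun n => F (T.symm^[n] z) := by
      funext n
      exact (conj_iter (T := T.symm) (T' := T'.symm) (fun x => conj_symm hF x) n z).symm
    rw [e]
    exact (F.continuous.tendsto p).comp h2
  · have e : (fun n => T'^[n] (F z)) = fun n => F (T^[n] z) := by
      funext n; exact (conj_iter hF n z).symm
    rw [e]
    exact (F.continuous.tendsto q).comp h3

end Inv

/-! ### the system -/

variable {B : ℕ → ℕ → Bool}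

lemma valS_iter (z : XS B) (n : ℕ) (k : ℤ) : ((shS B)^[n] z).1 k = z.1 (k + n) := by
  induction n generalizing k with
  | zero => simp
  | succ n ih =>
    rw [Function.iterate_succ_apply']
    show ((shS B)^[n] z).1 (k + 1) = _
    rw [ih]; push_cast; ring_nf

lemma valS_iter_symm (z : XS B) (n : ℕ) (k : ℤ) : ((shS B).symm^[n] z).1 k = z.1 (k - n) := by
  induction n generalizing k with
  | zero => simp
  | succ n ih =>
    rw [Function.iterate_succ_apply']
    show ((shS B).symm^[n] z).1 (k - 1) = _
    rw [ih]; push_cast; ring_nf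

lemma contS_coord (k : ℤ) (c : ℕ) : Continuous (fun y : XS B => y.1 k c) :=
  (continuous_apply (A := fun _ : ℕ => Bool) c).comp
    ((continuous_apply k).comp continuous_subtype_val)

lemma isClosed_SysS (B : ℕ → ℕ → Bool) : IsClosed (SysS B) :=
  isClosed_sysS.preimage (f := fun y : Om => ((B, y) : Rel × Om)) (by fun_prop)

instance : CompactSpace (XS B) :=
  isCompact_iff_compactSpace.mp (isClosed_SysS B).isCompact

/-- every neighbourhood of the diagonal contains a standard one -/
lemma exists_unif {D : Set (XS B × XS B)} (hD : IsOpen D) (hd : ∀ x, (x, x) ∈ D) :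
    ∃ M : ℕ, ∀ u v : XS B, (∀ k : ℤ, -(M : ℤ) ≤ k → k ≤ M → ∀ c ≤ M, u.1 k c = v.1 k c) →
      (u, v) ∈ D := by
  let V : ℕ → Set (XS B × XS B) := fun M =>
    {p | ∀ k : ℤ, -(M : ℤ) ≤ k → k ≤ M → ∀ c ≤ M, p.1.1 k c = p.2.1 k c}
  have hVc : ∀ M, IsClosed (V M) := by
    intro M
    have : V M = ⋂ k : ℤ, ⋂ _ : -(M : ℤ) ≤ k, ⋂ _ : k ≤ M, ⋂ c : ℕ, ⋂ _ : c ≤ M,
        {p : XS B × XS B | p.1.1 k c = p.2.1 k c} := by
      ext p; simp [V]
    rw [this]
    refine isClosed_iInter fun k => isClosed_iInter fun _ => isClosed_iInter fun _ =>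
      isClosed_iInter fun c => isClosed_iInter fun _ => ?_
    exact isClosed_eq ((contS_coord k c).comp continuous_fst)
      ((contS_coord k c).comp continuous_snd)
  have hanti : Antitone V := by
    intro M M' hMM p hp k h1 h2 c hc
    exact hp k (by omega) (by omega) c (by omega)
  obtain ⟨M, hM⟩ := exists_subset_nhds_of_isCompact' (V := V)
    (directed_of_isDirected_le (fun i j hij => hanti hij))
    (fun M => (hVc M).isCompact) hVc (U := D) (by
      intro p hp
      have hp' : p.1 = p.2 := by
        apply Subtype.ext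
        funext k c
        obtain ⟨M0, hM1, hM2⟩ : ∃ M0 : ℕ, k.natAbs ≤ M0 ∧ c ≤ M0 :=
          ⟨max k.natAbs c, le_max_left _ _, le_max_right _ _⟩
        have h1 := mem_iInter.mp hp M0
        exact h1 k (by omega) (by omega) c hM2
      apply hD.mem_nhds
      have : p = (p.1, p.1) := by
        ext1
        · rfl
        · exact hp'.symm
      rw [this]; exact hd _)
  exact ⟨M, fun u v h => hM h⟩

/-- constant sequences -/
def cs (B : ℕ → ℕ → Bool) (t : Bool) (a : Option ℕ) : XS B :=
  ⟨fun _ => lc t a, fun _ => vs_lc t a, fun _ => tr_lc.mpr (Or.inl ⟨rfl, rfl⟩)⟩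

lemma cs_inj {t t' : Bool} {a b : Option ℕ} (h : cs B t a = cs B t' b) : t = t' ∧ a = b :=
  lc_inj (congrFun (congrArg Subtype.val h) 0)

lemma shS_cs (t : Bool) (a : Option ℕ) : shS B (cs B t a) = cs B t a :=
  Subtype.ext (funext fun _ => rfl)

lemma mem_Sys_of_free {z : Om} (hz : z ∈ SysS B) (hfree : ∀ k, z k 0 = false) : z ∈ Sys B := by
  refine ⟨fun k => ⟨fun h => ?_, hz.1 k (hfree k)⟩, hz.2, fun k l h1 _ => ?_⟩
  · rw [hfree k] at h; exact absurd h (by decide)
  · rw [hfree k] at h1; exact absurd h1 (by decide)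

/-- points of expansivity have no joker -/
lemma free_of_exp {z : XS B} (h : ExpPt (shS B) z) : ∀ k, z.1 k 0 = false := by
  intro k
  by_contra hne
  have hk : z.1 k 0 = true := by simpa using hne
  obtain ⟨U, hU, hd, hz⟩ := h
  obtain ⟨M, hM⟩ := exists_unif hU hd
  -- flip coordinate M + 1 of letter k
  let w : Om := fun i c => if i = k ∧ c = M + 1 then !(z.1 i c) else z.1 i c
  have hw0 : ∀ i, w i 0 = z.1 i 0 := fun i => if_neg (by omega)
  have hwne : ∀ i, i ≠ k → w i = z.1 i := by
    intro i hi; funext c; exact if_neg (fun h => hi h.1)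
  have hwS : w ∈ SysS B := by
    refine ⟨fun i => ?_, fun i => ?_⟩
    · by_cases hi : i = k
      · intro h0
        rw [hw0, hi, hk] at h0; exact absurd h0 (by decide)
      · rw [hwne i hi]; exact z.2.1 i
    · by_cases hi : i = k
      · apply tr_star_left
        rw [hw0, hi]; exact hk
      · by_cases hi' : i + 1 = k
        · apply tr_star_right
          rw [hw0, hi']; exact hk
        · rw [hwne i hi, hwne (i + 1) hi']; exact z.2.2 i
  have hwz : ∀ i, ∀ c ≤ M, z.1 i c = w i c := by
    intro i c hc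
    symm
    exact if_neg (by omega)
  have h1 : (⟨w, hwS⟩ : XS B) = z := by
    apply hz
    · intro n
      apply hM
      intro i _ _ c hc
      rw [valS_iter, valS_iter]
      exact hwz _ c hc
    · intro n
      apply hM
      intro i _ _ c hc
      rw [valS_iter_symm, valS_iter_symm]
      exact hwz _ c hc
  have h2 : w k (M + 1) = z.1 k (M + 1) := congrFun (congrFun (congrArg Subtype.val h1) k) _
  have h3 : w k (M + 1) = !(z.1 k (M + 1)) := if_pos ⟨rfl, rfl⟩
  rw [h2] at h3
  cases h4 : z.1 k (M + 1) <;> rw [h4] at h3 <;> exact absurd h3 (by decide)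

/-- a sequence of letters with finite index is a point of expansivity, provided the indices
are bounded -/
lemma exp_of_bdd {z : XS B} {N : ℕ} (h : ∀ k, ∃ t n, n ≤ N ∧ z.1 k = lc t (some n)) :
    ExpPt (shS B) z := by
  refine ⟨{p | ∀ c ≤ N + 2, p.1.1 0 c = p.2.1 0 c}, ?_, fun x c _ => rfl, fun y h1 h2 => ?_⟩
  · have : {p : XS B × XS B | ∀ c ≤ N + 2, p.1.1 0 c = p.2.1 0 c} =
        ⋂ c ∈ Finset.range (N + 3), {p : XS B × XS B | p.1.1 0 c = p.2.1 0 c} := by
      ext p
      simp only [mem_ofPred_eq, mem_iInter, Finset.mem_range]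
      exact forall_congr' fun c => by
        constructor
        · intro h hc; exact h (by omega)
        · intro h hc; exact h (by omega)
    rw [this]
    apply isOpen_biInter_finset
    intro c _
    have hc : Continuous (fun p : XS B × XS B => ((p.1.1 0 c, p.2.1 0 c) : Bool × Bool)) :=
      ((contS_coord 0 c).comp continuous_fst).prodMk ((contS_coord 0 c).comp continuous_snd)
    exact (isOpen_discrete {q : Bool × Bool | q.1 = q.2}).preimage hc
  · have hall : ∀ k : ℤ, ∀ c ≤ N + 2, z.1 k c = y.1 k c := by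
      intro k c hc
      rcases le_or_gt 0 k with hk | hk
      · have h3 := h1 k.toNat c hc
        rw [valS_iter, valS_iter] at h3
        rwa [show (0 : ℤ) + (k.toNat : ℤ) = k by omega] at h3
      · have h3 := h2 (-k).toNat c hc
        rw [valS_iter_symm, valS_iter_symm] at h3
        rwa [show (0 : ℤ) - ((-k).toNat : ℤ) = k by omega] at h3
    apply Subtype.ext
    funext k
    obtain ⟨t, n, hn, hz⟩ := h k
    have e0 : y.1 k 0 = false := by rw [← hall k 0 (by omega), hz]; rfl
    have e1 : y.1 k 1 = t := by rw [← hall k 1 (by omega), hz]; rfl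
    have e2 : y.1 k (n + 2) = true := by
      rw [← hall k (n + 2) (by omega), hz, lc_idx]; simp
    rw [hz]
    funext c
    rcases c with _ | _ | c
    · exact e0
    · exact e1
    · rw [show c + 1 + 1 = c + 2 by ring, lc_idx]
      by_cases hc : n = c
      · rw [← hc, e2]; simp
      · have h3 : y.1 k (c + 2) ≠ true := fun h3 => hc (y.2.1 k e0 n c e2 h3)
        have h4 : y.1 k (c + 2) = false := by simpa using h3
        rw [h4]
        symm
        rw [decide_eq_false_iff_not]
        intro h5
        exact hc (Option.some.inj h5)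

/-- fixed points of expansivity -/
lemma fixed_exp {p : XS B} (hp : shS B p = p) (he : ExpPt (shS B) p) :
    ∃ t n, p = cs B t (some n) := by
  have hfree := free_of_exp he
  have h1 : ∀ k, p.1 (k + 1) = p.1 k := fun k => congrFun (congrArg Subtype.val hp) k
  have h2 : ∀ k, p.1 k = p.1 0 := by
    intro k
    induction k using Int.induction_on with
    | zero => rfl
    | succ n ih => rw [h1, ih]
    | pred n ih =>
      have h3 := h1 (-(n : ℤ) - 1)
      rw [sub_add_cancel] at h3
      rw [← h3, ih]
  have hval : Valid (p.1 0) := (mem_Sys_of_free p.2 hfree).1 0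
  obtain ⟨a, ha⟩ := exists_lc hval (hfree 0)
  rcases a with _ | n
  · exfalso
    obtain ⟨U, hU, hd, hz⟩ := he
    obtain ⟨M, hM⟩ := exists_unif hU hd
    have key : cs B (p.1 0 1) (some M) = p := by
      have hag : ∀ k : ℤ, ∀ c ≤ M, p.1 k c = (cs B (p.1 0 1) (some M)).1 k c := by
        intro k c hc
        rw [h2 k]
        show p.1 0 c = lc (p.1 0 1) (some M) c
        rw [ha]
        rcases c with _ | _ | c
        · rfl
        · rfl
        · rw [show c + 1 + 1 = c + 2 by ring, lc_idx, lc_idx]
          have : M ≠ c := by omega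
          simp [this]
      apply hz
      · intro n
        apply hM
        intro i _ _ c hc
        rw [valS_iter, valS_iter]
        exact hag _ c hc
      · intro n
        apply hM
        intro i _ _ c hc
        rw [valS_iter_symm, valS_iter_symm]
        exact hag _ c hc
    have h3 : lc (p.1 0 1) (some M) = p.1 0 := congrFun (congrArg Subtype.val key) 0
    rw [ha] at h3
    have h4 := (lc_inj h3).2
    simp at h4
  · exact ⟨p.1 0 1, n, Subtype.ext (funext fun k => by rw [h2 k]; exact ha)⟩

lemma tendstoS_iff {l : Filter ℕ} {f : ℕ → XS B} {p : XS B} :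
    Tendsto f l (𝓝 p) ↔ ∀ k c, ∀ᶠ n in l, (f n).1 k c = p.1 k c := by
  rw [tendsto_subtype_rng, tendsto_pi_nhds]
  refine forall_congr' fun k => ?_
  rw [tendsto_pi_nhds]
  refine forall_congr' fun c => ?_
  rw [nhds_discrete, tendsto_pure]

lemma elink_imp {t t' : Bool} {a b : Option ℕ} (hne : cs B t a ≠ cs B t' b)
    (h : ELink (shS B) (cs B t a) (cs B t' b)) : t = false ∧ t' = true ∧ HB B a b := by
  obtain ⟨z, h1, h2, h3⟩ := h
  have hfree := free_of_exp h1
  have hz : z.1 ∈ Sys B := mem_Sys_of_free z.2 hfree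
  apply link_imp (B := B) (t := t) (t' := t') (a := a) (b := b)
  · intro he
    obtain ⟨e1, e2⟩ := cst_inj he
    exact hne (by rw [e1, e2])
  · refine ⟨⟨z.1, hz⟩, (nwodd_iff _).mpr hfree, ?_, ?_⟩
    · rw [tendstoS_iff] at h2
      rw [tendsto_iff]
      intro k c
      filter_upwards [h2 k c] with n hn
      rw [val_iter_symm]
      rw [valS_iter_symm] at hn
      exact hn
    · rw [tendstoS_iff] at h3
      rw [tendsto_iff]
      intro k c
      filter_upwards [h3 k c] with n hn
      rw [val_iter]
      rw [valS_iter] at hn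
      exact hn

lemma elink_of {n m : ℕ} (h : B n m = true) :
    ELink (shS B) (cs B false (some n)) (cs B true (some m)) := by
  have hmem : (fun k : ℤ => if k < 0 then lc false (some n) else lc true (some m)) ∈ SysS B := by
    refine ⟨fun k => ?_, fun k => ?_⟩
    · simp only; split_ifs
      · exact vs_lc _ _
      · exact vs_lc _ _
    · simp only
      rcases lt_trichotomy k (-1) with hk | rfl | hk
      · rw [if_pos (by omega), if_pos (by omega)]; exact tr_lc.mpr (Or.inl ⟨rfl, rfl⟩)
      · rw [if_pos (by omega), if_neg (by omega)]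
        exact tr_lc.mpr (Or.inr ⟨rfl, rfl, HB_some.mpr h⟩)
      · rw [if_neg (by omega), if_neg (by omega)]; exact tr_lc.mpr (Or.inl ⟨rfl, rfl⟩)
  refine ⟨⟨_, hmem⟩, ?_, ?_, ?_⟩
  · apply exp_of_bdd (N := max n m)
    intro k
    simp only
    split_ifs
    · exact ⟨false, n, le_max_left _ _, rfl⟩
    · exact ⟨true, m, le_max_right _ _, rfl⟩
  · rw [tendstoS_iff]
    intro k c
    filter_upwards [eventually_gt_atTop k.natAbs] with j hj
    rw [valS_iter_symm]
    simp only
    rw [if_pos (by omega)]
    rfl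
  · rw [tendstoS_iff]
    intro k c
    filter_upwards [eventually_gt_atTop k.natAbs] with j hj
    rw [valS_iter]
    simp only
    rw [if_neg (by omega)]
    rfl

lemma exp_cs (t : Bool) (n : ℕ) : ExpPt (shS B) (cs B t (some n)) :=
  exp_of_bdd (N := n) fun _ => ⟨t, n, le_rfl, rfl⟩

lemma csS_ne (a b : Option ℕ) : cs B false a ≠ cs B true b := fun h =>
  absurd (cs_inj h).1 (by decide)

/-- every row and every column of the relation is nonzero -/
def Full (B : ℕ → ℕ → Bool) : Prop := (∀ n, ∃ m, B n m = true) ∧ ∀ m, ∃ n, B n m = true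

section Forward

variable {B' : ℕ → ℕ → Bool} {F : XS B ≃ₜ XS B'}

lemma image_fixed (hF : ∀ x, F (shS B x) = shS B' (F x)) (t : Bool) (n : ℕ) :
    ∃ t' n', F (cs B t (some n)) = cs B' t' (some n') := by
  apply fixed_exp
  · rw [← hF, shS_cs]
  · exact (exp_cs t n).map hF

lemma leftS (hfull : Full B) (hF : ∀ x, F (shS B x) = shS B' (F x)) (n : ℕ) :
    ∃ n', F (cs B false (some n)) = cs B' false (some n') := by
  obtain ⟨m, hm⟩ := hfull.1 n
  obtain ⟨t, n', hn'⟩ := image_fixed hF false n
  obtain ⟨t', m', hm'⟩ := image_fixed hF true m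
  have hl := (elink_of hm).map hF
  have hne : F (cs B false (some n)) ≠ F (cs B true (some m)) := fun h =>
    csS_ne _ _ (F.injective h)
  rw [hn', hm'] at hl hne
  have := (elink_imp hne hl).1
  subst this
  exact ⟨n', hn'⟩

lemma rightS (hfull : Full B) (hF : ∀ x, F (shS B x) = shS B' (F x)) (m : ℕ) :
    ∃ m', F (cs B true (some m)) = cs B' true (some m') := by
  obtain ⟨n, hm⟩ := hfull.2 m
  obtain ⟨t, n', hn'⟩ := image_fixed hF false n
  obtain ⟨t', m', hm'⟩ := image_fixed hF true m
  have hl := (elink_of hm).map hF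
  have hne : F (cs B false (some n)) ≠ F (cs B true (some m)) := fun h =>
    csS_ne _ _ (F.injective h)
  rw [hn', hm'] at hl hne
  have := (elink_imp hne hl).2.1
  subst this
  exact ⟨m', hm'⟩

/-- A conjugacy yields an isomorphism of the relations. -/
theorem conjS_forward (hB : Full B) (hB' : Full B') (hF : ∀ x, F (shS B x) = shS B' (F x)) :
    ∃ πL πR : Equiv.Perm ℕ, ∀ n m, B n m = B' (πL n) (πR m) := by
  choose α hα using leftS hB hF
  choose β hβ using rightS hB hF
  have hF' : ∀ y, F.symm (shS B' y) = shS B (F.symm y) := inv_comm hF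
  choose α' hα' using leftS hB' hF'
  choose β' hβ' using rightS hB' hF'
  have hαα : ∀ a, α' (α a) = a := by
    intro a
    have h1 := hα' (α a)
    rw [← hα a, Homeomorph.symm_apply_apply] at h1
    exact (Option.some.inj (cs_inj h1).2).symm
  have hαα' : ∀ a, α (α' a) = a := by
    intro a
    have h1 := hα (α' a)
    rw [← hα' a, Homeomorph.apply_symm_apply] at h1
    exact (Option.some.inj (cs_inj h1).2).symm
  have hββ : ∀ a, β' (β a) = a := by
    intro a
    have h1 := hβ' (β a)
    rw [← hβ a, Homeomorph.symm_apply_apply] at h1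
    exact (Option.some.inj (cs_inj h1).2).symm
  have hββ' : ∀ a, β (β' a) = a := by
    intro a
    have h1 := hβ (β' a)
    rw [← hβ' a, Homeomorph.apply_symm_apply] at h1
    exact (Option.some.inj (cs_inj h1).2).symm
  refine ⟨⟨α, α', hαα, hαα'⟩, ⟨β, β', hββ, hββ'⟩, fun n m => ?_⟩
  have key : B n m = true ↔ B' (α n) (β m) = true := by
    constructor
    · intro h
      have := (elink_of h).map hF
      rw [hα, hβ] at this
      exact HB_some.mp (elink_imp (csS_ne _ _) this).2.2
    · intro h
      have := (elink_of h).map hF'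
      rw [hα', hβ', hαα, hββ] at this
      exact HB_some.mp (elink_imp (csS_ne _ _) this).2.2
  show B n m = B' (α n) (β m)
  rcases h1 : B n m with _ | _ <;> rcases h2 : B' (α n) (β m) with _ | _ <;>
    simp_all

end Forward

/-! ### relabelling -/

lemma vs_rel {πL πR : Equiv.Perm ℕ} {v : ℕ → Bool} (h : VS v) : VS (rel πL πR v) := by
  intro h0 n m h1 h2
  have h0' : v 0 = false := h0
  rw [rel_idx] at h1 h2
  split_ifs at h1 h2
  · exact πR.symm.injective (h h0' _ _ h1 h2)
  · exact πL.symm.injective (h h0' _ _ h1 h2)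

lemma sysS_rel {B B' : ℕ → ℕ → Bool} {πL πR : Equiv.Perm ℕ}
    (hπ : ∀ n m, B n m = B' (πL n) (πR m)) {y : Om} (h : y ∈ SysS B) :
    (fun k => rel πL πR (y k)) ∈ SysS B' :=
  ⟨fun k => vs_rel (h.1 k), fun k => tr_rel hπ (h.2 k)⟩

/-- An isomorphism of the relations yields a conjugacy. -/
theorem conjS_backward {B B' : ℕ → ℕ → Bool} {πL πR : Equiv.Perm ℕ}
    (hπ : ∀ n m, B n m = B' (πL n) (πR m)) :
    ∃ F : XS B ≃ₜ XS B', ∀ x, F (shS B x) = shS B' (F x) := by
  have hπ' : ∀ n m, B' n m = B (πL.symm n) (πR.symm m) := by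
    intro n m; rw [hπ]; simp
  refine ⟨{ toFun := fun y => ⟨fun k => rel πL πR (y.1 k), sysS_rel hπ y.2⟩
            invFun := fun y => ⟨fun k => rel πL.symm πR.symm (y.1 k), sysS_rel hπ' y.2⟩
            left_inv := ?_
            right_inv := ?_
            continuous_toFun := ?_
            continuous_invFun := ?_ }, ?_⟩
  · intro y
    apply Subtype.ext
    funext k
    exact rel_rel πL πR (y.1 k)
  · intro y
    apply Subtype.ext
    funext k
    have := rel_rel πL.symm πR.symm (y.1 k)
    simpa using this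
  · apply Continuous.subtype_mk
    exact continuous_pi fun k => (continuous_rel _ _).comp
      ((continuous_apply k).comp continuous_subtype_val)
  · apply Continuous.subtype_mk
    exact continuous_pi fun k => (continuous_rel _ _).comp
      ((continuous_apply k).comp continuous_subtype_val)
  · intro x
    rfl

end Pool.Agent.CSPEC
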