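import Mathlib
import Pool.Agent.CSPEC.Dyn

open MeasureTheory Set TopologicalSpace Filter Topology

namespace Pool.Agent.CSPEC

open Pool.Agent.Lib_helper89 Pool.Agent.Lib_helper89.Cantor

/-! ### tracing orbit segments by a periodic point -/

section Trace

variable {n : ℕ} {a b : Fin n → ℤ} {p M : ℕ}

/-- time `k` belongs to the `r`-th translate of the `j`-th (enlarged) segment -/
def Cov (a b : Fin n → ℤ) (p M : ℕ) (j : Fin n) (r k : ℤ) : Prop :=
  a j - M ≤ k - r * p ∧ k - r * p ≤ b j + M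

lemma cov_unique (h1 : ∀ i j, i < j → b i + ((2 * M + 2 : ℕ) : ℤ) ≤ a j)
    (h2 : ∀ i j, b j + ((2 * M + 2 : ℕ) : ℤ) ≤ a i + p) {j j' : Fin n} {r r' k k' : ℤ}
    (hc : Cov a b p M j r k) (hc' : Cov a b p M j' r' k') (hk : k' ≤ k + 1) (hk' : k ≤ k' + 1) :
    j = j' ∧ r = r' := by
  obtain ⟨c1, c2⟩ := hc
  obtain ⟨c3, c4⟩ := hc'
  have hr : r = r' := by
    rcases lt_trichotomy r r' with h | h | h
    · exfalso
      have h3 : r * p + p ≤ r' * p := by
        have : (r + 1) * (p : ℤ) ≤ r' * p := mul_le_mul_of_nonneg_right (by omega) (by positivity)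
        linarith
      have h4 := h2 j' j
      push_cast at h4
      omega
    · exact h
    · exfalso
      have h3 : r' * p + p ≤ r * p := by
        have : (r' + 1) * (p : ℤ) ≤ r * p := mul_le_mul_of_nonneg_right (by omega) (by positivity)
        linarith
      have h4 := h2 j j'
      push_cast at h4
      omega
  subst hr
  refine ⟨?_, rfl⟩
  rcases lt_trichotomy j j' with h | h | h
  · exfalso
    have h4 := h1 j j' h
    push_cast at h4
    omega
  · exact h
  · exfalso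
    have h4 := h1 j' j h
    push_cast at h4
    omega

open Classical in
/-- tracing, symbolic form -/
lemma sysS_spec {B : ℕ → ℕ → Bool} (x : Fin n → Om) (hx : ∀ j, x j ∈ SysS B)
    (h1 : ∀ i j, i < j → b i + ((2 * M + 2 : ℕ) : ℤ) ≤ a j)
    (h2 : ∀ i j, b j + ((2 * M + 2 : ℕ) : ℤ) ≤ a i + p) :
    ∃ w ∈ SysS B, (∀ k : ℤ, w (k + p) = w k) ∧
      ∀ j, ∀ k : ℤ, a j - M ≤ k → k ≤ b j + M → w k = x j k := by
  let w : Om := fun k => if h : ∃ q : Fin n × ℤ, Cov a b p M q.1 q.2 k then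
    x h.choose.1 (k - h.choose.2 * p) else Cantor.star
  have hw : ∀ {j : Fin n} {r k : ℤ}, Cov a b p M j r k → w k = x j (k - r * p) := by
    intro j r k hc
    have hex : ∃ q : Fin n × ℤ, Cov a b p M q.1 q.2 k := ⟨(j, r), hc⟩
    have h3 := hex.choose_spec
    obtain ⟨e1, e2⟩ := cov_unique h1 h2 h3 hc (by omega) (by omega)
    show (if h : ∃ q : Fin n × ℤ, Cov a b p M q.1 q.2 k then
      x h.choose.1 (k - h.choose.2 * p) else Cantor.star) = _
    rw [dif_pos hex, e1, e2]
  have hw0 : ∀ {k : ℤ}, (¬ ∃ q : Fin n × ℤ, Cov a b p M q.1 q.2 k) → w k = Cantor.star := by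
    intro k hk
    exact dif_neg hk
  refine ⟨w, ?_, ?_, ?_⟩
  · apply mem_of_local
    intro k
    by_cases hk : ∃ q : Fin n × ℤ, Cov a b p M q.1 q.2 k
    · obtain ⟨⟨j, r⟩, hc⟩ := hk
      refine ⟨x j, hx j, k - r * p, hw hc, ?_⟩
      by_cases hk' : ∃ q : Fin n × ℤ, Cov a b p M q.1 q.2 (k + 1)
      · obtain ⟨⟨j', r'⟩, hc'⟩ := hk'
        obtain ⟨e1, e2⟩ := cov_unique h1 h2 hc hc' (by omega) (by omega)
        right; right
        simp only at e1 e2
        rw [hw hc', ← e1, ← e2]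
        congr 1
        ring
      · right; left
        rw [hw0 hk']; rfl
    · refine ⟨js, js_mem B, k, hw0 hk, ?_⟩
      left
      rw [hw0 hk]; rfl
  · intro k
    by_cases hk : ∃ q : Fin n × ℤ, Cov a b p M q.1 q.2 k
    · obtain ⟨⟨j, r⟩, hc⟩ := hk
      have hc' : Cov a b p M j (r + 1) (k + p) := by
        obtain ⟨c1, c2⟩ := hc
        simp only at c1 c2
        refine ⟨?_, ?_⟩
        · rw [show k + (p : ℤ) - (r + 1) * p = k - r * p by ring]; exact c1
        · rw [show k + (p : ℤ) - (r + 1) * p = k - r * p by ring]; exact c2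
      rw [hw hc', hw hc]
      congr 1
      ring
    · have hk' : ¬ ∃ q : Fin n × ℤ, Cov a b p M q.1 q.2 (k + p) := by
        rintro ⟨⟨j, r⟩, hc⟩
        apply hk
        refine ⟨(j, r - 1), ?_, ?_⟩
        · have := hc.1
          simp only at this ⊢
          rwa [show k - (r - 1) * (p : ℤ) = k + p - r * p by ring]
        · have := hc.2
          simp only at this ⊢
          rwa [show k - (r - 1) * (p : ℤ) = k + p - r * p by ring]
      rw [hw0 hk', hw0 hk]
  · intro j k hk1 hk2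
    have hc : Cov a b p M j 0 k := ⟨by simpa using hk1, by simpa using hk2⟩
    rw [hw hc]
    congr 1
    ring

end Trace

/-! ### transfer to the Cantor set -/

lemma val_zpow {B : Rel} {T : C ≃ₜ C} {H : C ≃ₜ XS B} (hH : ∀ x, H (T x) = shS B (H x))
    (k : ℤ) (x : C) (i : ℤ) : (H ((T ^ k) x)).1 i = (H x).1 (i + k) := by
  have hnat : ∀ (n : ℕ) (x : C) (i : ℤ), (H ((T ^ n) x)).1 i = (H x).1 (i + n) := by
    intro n x i
    rw [pow_apply, conj_iter hH, valS_iter]
  rcases Int.eq_nat_or_neg k with ⟨n, rfl | rfl⟩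
  · rw [zpow_natCast]; exact hnat n x i
  · set u := (T ^ (-(n : ℤ))) x with hu
    have h1 : (T ^ n) u = x := by
      rw [hu, zpow_neg, zpow_natCast, ← Homeomorph.mul_apply, mul_inv_cancel]
      rfl
    have h2 := hnat n u (i + -(n : ℤ))
    rw [h1, show i + -(n : ℤ) + n = i by ring] at h2
    exact h2.symm

lemma family_spec {B : Rel} {T : C ≃ₜ C} {H : C ≃ₜ XS B} (hH : ∀ x, H (T x) = shS B (H x)) :
    Specification T := by
  intro m
  let D : Set (XS B × XS B) := {q | ∀ i < m, H.symm q.1 i = H.symm q.2 i}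
  have hD : IsOpen D := by
    have : D = ⋂ i ∈ Finset.range m, {q : XS B × XS B | H.symm q.1 i = H.symm q.2 i} := by
      ext q; simp [D]
    rw [this]
    apply isOpen_biInter_finset
    intro i _
    have hc : Continuous (fun q : XS B × XS B => ((H.symm q.1 i, H.symm q.2 i) : Bool × Bool)) :=
      ((continuous_apply (A := fun _ : ℕ => Bool) i).comp
        (H.symm.continuous.comp continuous_fst)).prodMk
      ((continuous_apply (A := fun _ : ℕ => Bool) i).comp
        (H.symm.continuous.comp continuous_snd))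
    exact (isOpen_discrete {q : Bool × Bool | q.1 = q.2}).preimage hc
  obtain ⟨M, hM⟩ := exists_unif hD (fun x i _ => rfl)
  refine ⟨2 * M + 2, fun n x a b p _ _ h1 h2 => ?_⟩
  obtain ⟨w, hw, hper, htr⟩ := sysS_spec (B := B) (fun j => (H (x j)).1) (fun j => (H (x j)).2)
    h1 h2
  refine ⟨H.symm ⟨w, hw⟩, ?_, fun j k hk1 hk2 i hi => ?_⟩
  · apply H.injective
    apply Subtype.ext
    funext i
    rw [← zpow_natCast, val_zpow hH, Homeomorph.apply_symm_apply]
    exact hper i
  · have hin : (H ((T ^ k) (H.symm ⟨w, hw⟩)), H ((T ^ k) (x j))) ∈ D := by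
      apply hM
      intro l hl1 hl2 c _
      rw [val_zpow hH, val_zpow hH, Homeomorph.apply_symm_apply]
      show w (l + k) c = _
      rw [htr j (l + k) (by omega) (by omega)]
    have h3 := hin i hi
    simp only [Homeomorph.symm_apply_apply] at h3
    exact h3

/-! ### consequences of specification -/

lemma open_cyl {U : Set C} (hU : IsOpen U) {x : C} (hx : x ∈ U) :
    ∃ m : ℕ, ∀ y : C, (∀ i < m, y i = x i) → y ∈ U := by
  obtain ⟨I, u, hu, hsub⟩ := isOpen_pi_iff.mp hU x hx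
  obtain ⟨b, hb⟩ := I.bddAbove
  refine ⟨b + 1, fun y hy => hsub ?_⟩
  intro i hi
  rw [hy i (Nat.lt_succ_of_le (hb hi))]
  exact (hu i hi).2

lemma mixing_of_spec {T : C ≃ₜ C} (h : Specification T) : IsMixing T := by
  intro U V hU hV hUn hVn
  obtain ⟨x, hx⟩ := hUn
  obtain ⟨y, hy⟩ := hVn
  obtain ⟨m1, hm1⟩ := open_cyl hU hx
  obtain ⟨m2, hm2⟩ := open_cyl hV hy
  obtain ⟨N, hN⟩ := h (max m1 m2)
  refine ⟨N, fun n hn => ?_⟩
  obtain ⟨z, _, hz⟩ := hN 2 ![x, (T ^ (-(n : ℤ))) y] ![0, (n : ℤ)] ![0, (n : ℤ)] (n + N + 1)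
    (by omega) (by simp [Fin.forall_fin_two]) (by
      intro i j hij
      fin_cases i <;> fin_cases j
      · simp at hij
      · show (0 : ℤ) + N ≤ n
        omega
      · simp at hij
      · simp at hij) (by
      intro i j
      fin_cases i <;> fin_cases j
      · show (0 : ℤ) + N ≤ 0 + ((n + N + 1 : ℕ) : ℤ)
        push_cast; omega
      · show (n : ℤ) + N ≤ 0 + ((n + N + 1 : ℕ) : ℤ)
        push_cast; omega
      · show (0 : ℤ) + N ≤ n + ((n + N + 1 : ℕ) : ℤ)
        push_cast; omega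
      · show (n : ℤ) + N ≤ n + ((n + N + 1 : ℕ) : ℤ)
        push_cast; omega)
  refine ⟨(T ^ n) z, ⟨z, ?_, rfl⟩, ?_⟩
  · apply hm1
    intro i hi
    have h1 := hz 0 0 le_rfl le_rfl i (lt_of_lt_of_le hi (le_max_left _ _))
    simpa using h1
  · apply hm2
    intro i hi
    have h1 := hz 1 (n : ℤ) le_rfl le_rfl i (lt_of_lt_of_le hi (le_max_right _ _))
    rw [zpow_natCast] at h1
    rw [h1]
    show (T ^ n) ((T ^ (-(n : ℤ))) y) i = y i
    rw [zpow_neg, zpow_natCast, ← Homeomorph.mul_apply, mul_inv_cancel]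
    rfl

lemma densePeriodic_of_spec {T : C ≃ₜ C} (h : Specification T) : DensePeriodic T := by
  intro U hU hUn
  obtain ⟨x, hx⟩ := hUn
  obtain ⟨m, hm⟩ := open_cyl hU hx
  obtain ⟨N, hN⟩ := h m
  obtain ⟨z, hz1, hz⟩ := hN 1 (fun _ => x) (fun _ => 0) (fun _ => 0) (N + 1) (by omega)
    (fun _ => le_rfl) (fun i j hij => absurd hij (by
      have : i = j := Subsingleton.elim i j
      rw [this]; exact lt_irrefl _)) (fun _ _ => by push_cast; omega)
  refine ⟨z, ?_, N + 1, by omega, hz1⟩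
  apply hm
  intro i hi
  have h1 := hz 0 0 le_rfl le_rfl i hi
  simpa using h1

lemma transitive_of_mixing {T : C ≃ₜ C} (h : IsMixing T) : IsTransitive T := by
  intro U V hU hV hUn hVn
  obtain ⟨N, hN⟩ := h U V hU hV hUn hVn
  refine ⟨(N : ℤ), ?_⟩
  have := hN N le_rfl
  rwa [← zpow_natCast] at this

end Pool.Agent.CSPEC
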