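import Mathlib
import Pool.Agent.CSPEC.Spec

open MeasureTheory Set TopologicalSpace Filter Topology

namespace Pool.Agent.CSPEC

open Pool.Agent.Lib_helper89 Pool.Agent.Lib_helper89.Cantor

/-! ### coding -/

/-- add a row of ones and a column of ones -/
def ext (B : Rel) : Rel
  | 0, _ => true
  | _ + 1, 0 => true
  | n + 1, m + 1 => B n m

lemma ext_zero_left (B : Rel) (m : ℕ) : ext B 0 m = true := rfl
lemma ext_zero_right (B : Rel) (n : ℕ) : ext B n 0 = true := by cases n <;> rfl
lemma ext_succ (B : Rel) (n m : ℕ) : ext B (n + 1) (m + 1) = B n m := rfl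

lemma full_ext (B : Rel) : Full (ext B) :=
  ⟨fun n => ⟨0, ext_zero_right B n⟩, fun m => ⟨0, ext_zero_left B m⟩⟩

/-- every row and every column has a zero -/
def Hole (B : Rel) : Prop := (∀ n, ∃ m, B n m = false) ∧ ∀ m, ∃ n, B n m = false

lemma hole_inc (G : SimpleGraph ℕ) : Hole (inc G) := by
  constructor
  · intro n
    refine ⟨Nat.pair 0 0, ?_⟩
    have : ¬ inc G n (Nat.pair 0 0) = true := by
      rw [inc_iff]; simp
    simpa using this
  · intro r
    refine ⟨r.unpair.1 + r.unpair.2 + 1, ?_⟩
    have : ¬ inc G (r.unpair.1 + r.unpair.2 + 1) r = true := by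
      rw [inc_iff]
      rintro ⟨_, h | h⟩ <;> omega
    simpa using this

lemma measurable_ext : Measurable ext := by
  apply measurable_pi_lambda
  intro n
  apply measurable_pi_lambda
  intro m
  rcases n with _ | n
  · exact measurable_const
  · rcases m with _ | m
    · exact measurable_const
    · exact (measurable_pi_apply m).comp (measurable_pi_apply n)

/-- extension of a permutation, fixing zero -/
def up (π : Equiv.Perm ℕ) : Equiv.Perm ℕ where
  toFun n := match n with
    | 0 => 0
    | n + 1 => π n + 1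
  invFun n := match n with
    | 0 => 0
    | n + 1 => π.symm n + 1
  left_inv n := by cases n <;> simp
  right_inv n := by cases n <;> simp

/-- restriction of a permutation that fixes zero -/
def down (π : Equiv.Perm ℕ) (h : π 0 = 0) : Equiv.Perm ℕ where
  toFun n := π (n + 1) - 1
  invFun n := π.symm (n + 1) - 1
  left_inv n := by
    have h1 : π (n + 1) ≠ 0 := fun h2 => by
      have := π.injective (h2.trans h.symm); omega
    show π.symm (π (n + 1) - 1 + 1) - 1 = n
    rw [Nat.sub_add_cancel (Nat.pos_of_ne_zero h1), Equiv.symm_apply_apply]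
    rfl
  right_inv n := by
    have h1 : π.symm (n + 1) ≠ 0 := fun h2 => by
      have h3 : n + 1 = π 0 := by rw [← h2, Equiv.apply_symm_apply]
      rw [h] at h3; omega
    show π (π.symm (n + 1) - 1 + 1) - 1 = n
    rw [Nat.sub_add_cancel (Nat.pos_of_ne_zero h1), Equiv.apply_symm_apply]
    rfl

lemma down_succ (π : Equiv.Perm ℕ) (h : π 0 = 0) (n : ℕ) : down π h n + 1 = π (n + 1) := by
  have h1 : π (n + 1) ≠ 0 := fun h2 => by
    have := π.injective (h2.trans h.symm); omega
  show π (n + 1) - 1 + 1 = π (n + 1)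
  exact Nat.sub_add_cancel (Nat.pos_of_ne_zero h1)

lemma ext_iff {B B' : Rel} (hB' : Hole B') :
    (∃ πL πR : Equiv.Perm ℕ, ∀ n m, ext B n m = ext B' (πL n) (πR m)) ↔
      ∃ πL πR : Equiv.Perm ℕ, ∀ n m, B n m = B' (πL n) (πR m) := by
  constructor
  · rintro ⟨πL, πR, h⟩
    have hL : πL 0 = 0 := by
      by_contra hne
      obtain ⟨k, hk⟩ := Nat.exists_eq_succ_of_ne_zero hne
      obtain ⟨m, hm⟩ := hB'.1 k
      obtain ⟨m', hm'⟩ := πR.surjective (m + 1)
      have h1 := h 0 m'
      rw [hk, hm', ext_zero_left] at h1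
      have h2 : ext B' (k + 1) (m + 1) = false := by rw [ext_succ]; exact hm
      rw [show k.succ = k + 1 from rfl, h2] at h1
      exact absurd h1 (by decide)
    have hR : πR 0 = 0 := by
      by_contra hne
      obtain ⟨k, hk⟩ := Nat.exists_eq_succ_of_ne_zero hne
      obtain ⟨n, hn⟩ := hB'.2 k
      obtain ⟨n', hn'⟩ := πL.surjective (n + 1)
      have h1 := h n' 0
      rw [hk, hn', ext_zero_right] at h1
      have h2 : ext B' (n + 1) (k + 1) = false := by rw [ext_succ]; exact hn
      rw [show k.succ = k + 1 from rfl, h2] at h1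
      exact absurd h1 (by decide)
    refine ⟨down πL hL, down πR hR, fun n m => ?_⟩
    have h1 := h (n + 1) (m + 1)
    rw [← down_succ πL hL, ← down_succ πR hR, ext_succ, ext_succ] at h1
    exact h1
  · rintro ⟨πL, πR, h⟩
    refine ⟨up πL, up πR, fun n m => ?_⟩
    rcases n with _ | n
    · show true = ext B' 0 _
      rw [ext_zero_left]
    · rcases m with _ | m
      · show true = ext B' _ 0
        rw [ext_zero_right]
      · exact h n m

/-! ### the reductions -/

/-- conjugacy of the members of the family -/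
lemma familyS_conj {B B' : Rel} (hB : Full B) (hB' : Full B') {T T' : C ≃ₜ C}
    {H : C ≃ₜ XS B} (hH : ∀ x, H (T x) = shS B (H x))
    {H' : C ≃ₜ XS B'} (hH' : ∀ x, H' (T' x) = shS B' (H' x)) :
    Conj T T' ↔ ∃ πL πR : Equiv.Perm ℕ, ∀ n m, B n m = B' (πL n) (πR m) := by
  rw [conj_iff]
  constructor
  · rintro ⟨h, hh⟩
    apply conjS_forward hB hB' (F := (H.symm.trans h.symm).trans H')
    intro x
    show H' (h.symm (H.symm (shS B x))) = shS B' (H' (h.symm (H.symm x)))
    rw [inv_comm hH, ← hH']
    congr 1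
    rw [Homeomorph.symm_apply_eq, ← hh, Homeomorph.apply_symm_apply]
  · rintro ⟨πL, πR, hπ⟩
    obtain ⟨F, hF⟩ := conjS_backward hπ
    refine ⟨(H'.trans F.symm).trans H.symm, fun x => ?_⟩
    show T (H.symm (F.symm (H' x))) = H.symm (F.symm (H' (T' x)))
    rw [hH', inv_comm hF, inv_comm hH]

/-- One Borel map reduces isomorphism of countable graphs to conjugacy and takes all its
values in the homeomorphisms with the specification property. -/
theorem graph_to_spec : ∃ f : SimpleGraph ℕ → (C ≃ₜ C), Measurable f ∧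
    (∀ G, Specification (f G)) ∧ ∀ G G', GraphIso G G' ↔ Conj (f G) (f G') := by
  obtain ⟨f, hf, hH⟩ := exists_familyS
  choose H hH using hH
  refine ⟨fun G => f (ext (inc G)), hf.comp (measurable_ext.comp measurable_inc),
    fun G => family_spec (hH (ext (inc G))), fun G G' => ?_⟩
  rw [graphIso_iff, ← ext_iff (hole_inc G')]
  exact (familyS_conj (full_ext _) (full_ext _) (hH (ext (inc G))) (hH (ext (inc G')))).symm

/-- Conjugacy on any class of homeomorphisms is Borel reducible to graph isomorphism. -/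
theorem conjOn_to_graph (K : Set (C ≃ₜ C)) : BorelReducible (ConjOn K) GraphIso :=
  ⟨fun T => grT T.1, measurable_grT.comp measurable_subtype_coe, fun _ _ => conj_iff_grT _ _⟩

theorem graph_to_conjOn {K : Set (C ≃ₜ C)} (hK : ∀ T, Specification T → T ∈ K) :
    BorelReducible GraphIso (ConjOn K) := by
  obtain ⟨f, hf, hs, hh⟩ := graph_to_spec
  exact ⟨fun G => ⟨f G, hK _ (hs G)⟩, hf.subtype_mk, fun G G' => hh G G'⟩

/-- the complete statement -/
theorem main :
    (BorelReducible GraphIso ConjTrans ∧ BorelReducible ConjTrans GraphIso) ∧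
    (∀ K : Set (C ≃ₜ C), (∀ T, Specification T → T ∈ K) →
      BorelReducible GraphIso (ConjOn K) ∧ BorelReducible (ConjOn K) GraphIso) ∧
    ∀ T : C ≃ₜ C, Specification T → IsMixing T ∧ DensePeriodic T ∧ IsTransitive T :=
  ⟨⟨graph_to_conjOn (K := {T | IsTransitive T})
      (fun _ h => transitive_of_mixing (mixing_of_spec h)), trans_to_graph⟩,
    fun K hK => ⟨graph_to_conjOn hK, conjOn_to_graph K⟩,
    fun _ h => ⟨mixing_of_spec h, densePeriodic_of_spec h,
      transitive_of_mixing (mixing_of_spec h)⟩⟩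

end Pool.Agent.CSPEC
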