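import Mathlib
import Pool.Agent.CSPEC.Final

open MeasureTheory Set TopologicalSpace Filter Topology

namespace Pool.Agent.CSPEC

open Pool.Agent.Lib_helper89 Pool.Agent.Lib_helper89.Cantor

/-! ### truncation of letters -/

/-- an index that is too large is replaced by infinity -/
def trunc (M : ℕ) (v : ℕ → Bool) : ℕ → Bool := fun c => if v 0 = true ∨ c ≤ M then v c else false

lemma trunc_le {M : ℕ} {v : ℕ → Bool} {c : ℕ} (h : c ≤ M) : trunc M v c = v c := if_pos (Or.inr h)

lemma trunc_true {M : ℕ} {v : ℕ → Bool} (h0 : v 0 = false) {c : ℕ} (h : trunc M v c = true) :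
    c ≤ M ∧ v c = true := by
  unfold trunc at h
  split_ifs at h with h1
  rcases h1 with h1 | h1
  · rw [h0] at h1; exact absurd h1 (by decide)
  · exact ⟨h1, h⟩

lemma vs_trunc {M : ℕ} {v : ℕ → Bool} (h : VS v) : VS (trunc M v) := by
  intro h0 n m h1 h2
  rw [trunc_le (Nat.zero_le _)] at h0
  exact h h0 n m (trunc_true h0 h1).2 (trunc_true h0 h2).2

lemma tr_trunc {B : ℕ → ℕ → Bool} {M : ℕ} (hM : 1 ≤ M) {v w u : ℕ → Bool} (h : Tr B v w)
    (hu : ∀ c ≤ M, u c = w c) : Tr B (trunc M v) (trunc M u) := by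
  by_cases hv0 : v 0 = true
  · left; rw [trunc_le (Nat.zero_le _)]; exact hv0
  by_cases hw0 : w 0 = true
  · right; left; rw [trunc_le (Nat.zero_le _), hu 0 (Nat.zero_le _)]; exact hw0
  have hv0' : v 0 = false := by simpa using hv0
  have hw0' : w 0 = false := by simpa using hw0
  have hu0 : u 0 = false := by rw [hu 0 (Nat.zero_le _)]; exact hw0'
  rcases h with h | h | ⟨h1, h2⟩ | ⟨h1, h2, h3⟩
  · exact absurd h hv0
  · exact absurd h hw0
  · right; right; left
    refine ⟨by rw [trunc_le hM, trunc_le hM, hu 1 hM]; exact h1, fun n => ?_⟩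
    by_cases hn : n + 2 ≤ M
    · rw [trunc_le hn, trunc_le hn, hu _ hn]; exact h2 n
    · have e1 : trunc M v (n + 2) = false := by
        unfold trunc; rw [if_neg (by rw [hv0']; simp [hn])]
      have e2 : trunc M u (n + 2) = false := by
        unfold trunc; rw [if_neg (by rw [hu0]; simp [hn])]
      rw [e1, e2]
  · right; right; right
    refine ⟨by rw [trunc_le hM]; exact h1, by rw [trunc_le hM, hu 1 hM]; exact h2,
      fun n m hn hm => ?_⟩
    obtain ⟨_, hn2⟩ := trunc_true hv0' hn
    obtain ⟨hm1, hm2⟩ := trunc_true hu0 hm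
    rw [hu _ hm1] at hm2
    exact h3 n m hn2 hm2

/-- shadowing, symbolic form -/
lemma sysS_shadow {B : ℕ → ℕ → Bool} {M : ℕ} (hM : 1 ≤ M) (x : ℤ → Om) (hx : ∀ k, x k ∈ SysS B)
    (h : ∀ k l : ℤ, -(M : ℤ) ≤ l → l ≤ M → ∀ c ≤ M, x (k + 1) l c = x k (l + 1) c) :
    ∃ w ∈ SysS B, ∀ k l : ℤ, -(M : ℤ) ≤ l → l ≤ M → ∀ c ≤ M, w (l + k) c = x k l c := by
  have hpos : ∀ (n : ℕ) (k j : ℤ), -(M : ℤ) ≤ j → j + n ≤ M → ∀ c ≤ M,
      x (k + n) j c = x k (j + n) c := by
    intro n
    induction n with
    | zero => intro k j _ _ c _; simp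
    | succ n ih =>
      intro k j h1 h2 c hc
      push_cast at h2 ⊢
      have e1 : x (k + (n + 1)) j c = x (k + n) (j + 1) c := by
        rw [show k + ((n : ℤ) + 1) = k + n + 1 by ring]
        exact h _ _ h1 (by omega) c hc
      rw [e1, ih k (j + 1) (by omega) (by omega) c hc]
      rw [show j + 1 + (n : ℤ) = j + (n + 1) by ring]
  refine ⟨fun k => trunc M (x k 0), ⟨fun k => vs_trunc ((hx k).1 0), fun k => ?_⟩, ?_⟩
  · have h1 := (hx k).2 0
    rw [zero_add] at h1
    apply tr_trunc hM h1
    intro c hc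
    have h2 := h k 0 (by omega) (by omega) c hc
    rwa [zero_add] at h2
  · intro k l h1 h2 c hc
    show trunc M (x (l + k) 0) c = x k l c
    rw [trunc_le hc]
    rcases le_or_gt 0 l with hl | hl
    · have h3 := hpos l.toNat k 0 (by omega) (by omega) c hc
      rwa [show k + (l.toNat : ℤ) = l + k by omega, show (0 : ℤ) + (l.toNat : ℤ) = l by omega]
        at h3
    · have h3 := hpos (-l).toNat (l + k) l h1 (by omega) c hc
      rw [show l + k + ((-l).toNat : ℤ) = k by omega, show l + ((-l).toNat : ℤ) = 0 by omega]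
        at h3
      exact h3.symm

/-- every neighbourhood of the diagonal of the Cantor set contains a standard one -/
lemma exists_unifC {D : Set (C × C)} (hD : IsOpen D) (hd : ∀ x, (x, x) ∈ D) :
    ∃ M : ℕ, ∀ u v : C, (∀ i < M, u i = v i) → (u, v) ∈ D := by
  let V : ℕ → Set (C × C) := fun M => {p | ∀ i < M, p.1 i = p.2 i}
  have hVc : ∀ M, IsClosed (V M) := by
    intro M
    have : V M = ⋂ i : ℕ, ⋂ _ : i < M, {p : C × C | p.1 i = p.2 i} := by
      ext p; simp [V]
    rw [this]
    refine isClosed_iInter fun i => isClosed_iInter fun _ => ?_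
    exact isClosed_eq ((continuous_apply i).comp continuous_fst)
      ((continuous_apply i).comp continuous_snd)
  have hanti : Antitone V := by
    intro M M' hMM p hp i hi
    exact hp i (by omega)
  obtain ⟨M, hM⟩ := exists_subset_nhds_of_isCompact' (V := V)
    (directed_of_isDirected_le (fun i j hij => hanti hij))
    (fun M => (hVc M).isCompact) hVc (U := D) (by
      intro p hp
      have hp' : p.1 = p.2 := by
        funext i
        exact mem_iInter.mp hp (i + 1) i (by omega)
      apply hD.mem_nhds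
      have : p = (p.1, p.1) := by
        ext1
        · rfl
        · exact hp'.symm
      rw [this]; exact hd _)
  exact ⟨M, fun u v h => hM h⟩

lemma family_shadow {B : Rel} {T : C ≃ₜ C} {H : C ≃ₜ XS B} (hH : ∀ x, H (T x) = shS B (H x)) :
    Shadowing T := by
  intro m
  let D : Set (XS B × XS B) := {q | ∀ i < m, H.symm q.1 i = H.symm q.2 i}
  have hD : IsOpen D := by
    have : D = ⋂ i ∈ Finset.range m, {q : XS B × XS B | H.symm q.1 i = H.symm q.2 i} := by
      ext q; simp [D]
    rw [this]
    apply isOpen_biInter_finset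
    intro i _
    have hc : Continuous (fun q : XS B × XS B => ((H.symm q.1 i, H.symm q.2 i) : Bool × Bool)) :=
      ((continuous_apply (A := fun _ : ℕ => Bool) i).comp
        (H.symm.continuous.comp continuous_fst)).prodMk
      ((continuous_apply (A := fun _ : ℕ => Bool) i).comp
        (H.symm.continuous.comp continuous_snd))
    exact (isOpen_discrete {q : Bool × Bool | q.1 = q.2}).preimage hc
  obtain ⟨M0, hM0⟩ := exists_unif hD (fun x i _ => rfl)
  set M := M0 + 1 with hMdef
  let E : Set (C × C) := {q | ∀ l ∈ Finset.Icc (-(M : ℤ)) M, ∀ c ∈ Finset.range (M + 1),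
    (H q.1).1 l c = (H q.2).1 l c}
  have hE : IsOpen E := by
    have : E = ⋂ l ∈ Finset.Icc (-(M : ℤ)) M, ⋂ c ∈ Finset.range (M + 1),
        {q : C × C | (H q.1).1 l c = (H q.2).1 l c} := by
      ext q; simp [E]
    rw [this]
    apply isOpen_biInter_finset
    intro l _
    apply isOpen_biInter_finset
    intro c _
    have hc : Continuous (fun q : C × C => (((H q.1).1 l c, (H q.2).1 l c) : Bool × Bool)) :=
      ((contS_coord l c).comp (H.continuous.comp continuous_fst)).prodMk
      ((contS_coord l c).comp (H.continuous.comp continuous_snd))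
    exact (isOpen_discrete {q : Bool × Bool | q.1 = q.2}).preimage hc
  obtain ⟨M', hM'⟩ := exists_unifC hE (fun x l _ c _ => rfl)
  refine ⟨M', fun x hx => ?_⟩
  obtain ⟨w, hw, htr⟩ := sysS_shadow (B := B) (M := M) (by omega) (fun k => (H (x k)).1)
    (fun k => (H (x k)).2) (by
      intro k l h1 h2 c hc
      have h3 := hM' (T (x k)) (x (k + 1)) (hx k)
      have h4 := h3 l (Finset.mem_Icc.mpr ⟨h1, h2⟩) c (Finset.mem_range.mpr (by omega))
      simp only at h4
      rw [hH] at h4
      exact h4.symm)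
  refine ⟨H.symm ⟨w, hw⟩, fun k i hi => ?_⟩
  have hin : (H ((T ^ k) (H.symm ⟨w, hw⟩)), H (x k)) ∈ D := by
    apply hM0
    intro l hl1 hl2 c hc
    rw [val_zpow hH, Homeomorph.apply_symm_apply]
    exact htr k l (by omega) (by omega) c (by omega)
  have h3 := hin i hi
  simp only [Homeomorph.symm_apply_apply] at h3
  exact h3

/-- One Borel map reduces isomorphism of countable graphs to conjugacy and takes all its
values in the homeomorphisms with the specification property and the shadowing property. -/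
theorem graph_to_spec_shadow : ∃ f : SimpleGraph ℕ → (C ≃ₜ C), Measurable f ∧
    (∀ G, Specification (f G) ∧ Shadowing (f G)) ∧
    ∀ G G', GraphIso G G' ↔ Conj (f G) (f G') := by
  obtain ⟨f, hf, hH⟩ := exists_familyS
  choose H hH using hH
  refine ⟨fun G => f (ext (inc G)), hf.comp (measurable_ext.comp measurable_inc),
    fun G => ⟨family_spec (hH (ext (inc G))), family_shadow (hH (ext (inc G)))⟩,
    fun G G' => ?_⟩
  rw [graphIso_iff, ← ext_iff (hole_inc G')]
  exact (familyS_conj (full_ext _) (full_ext _) (hH (ext (inc G))) (hH (ext (inc G')))).symm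

/-- the complete statement -/
theorem main_shadow :
    (BorelReducible GraphIso ConjTrans ∧ BorelReducible ConjTrans GraphIso) ∧
    (∀ K : Set (C ≃ₜ C), (∀ T, Specification T → Shadowing T → T ∈ K) →
      BorelReducible GraphIso (ConjOn K) ∧ BorelReducible (ConjOn K) GraphIso) ∧
    ∀ T : C ≃ₜ C, Specification T → IsMixing T ∧ DensePeriodic T ∧ IsTransitive T := by
  refine ⟨main.1, fun K hK => ⟨?_, conjOn_to_graph K⟩, main.2.2⟩
  obtain ⟨f, hf, hs, hh⟩ := graph_to_spec_shadow
  exact ⟨fun G => ⟨f G, hK _ (hs G).1 (hs G).2⟩, hf.subtype_mk, fun G G' => hh G G'⟩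

end Pool.Agent.CSPEC
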